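import Pool.Agent.MP_c1891a_nt.G43.Spec
import Pool.Agent.MP_c1891a_nt.H19.NormL

/-
The norm of a Laurent polynomial on a lattice.
-/

namespace Pool.Agent.MP_c1891a_nt.G43

open Finset Module H43

/-- every zero has codimension at least `k`. -/
def normNBd {Λ : Type} [AddCommGroup Λ] (S : Sys Λ) (k : ℕ) : Prop :=
  ∀ (F : Type) [Field F] [Algebra ℂ F] (x : AddChar Λ F), S.Zero x → ∀ n, TD x n →
    n + k ≤ finrank ℤ Λ

theorem normN_tw {Λ : Type} [AddCommGroup Λ] (S : Sys Λ) (θ : ℂ ≃+* ℂ) (k : ℕ)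
    (h : normNBd (S.wc fun i => θ (S.c i)) k) : normNBd S k := by
  intro F _ A x hx n ⟨l, hl⟩
  let A' : Algebra ℂ F := ((algebraMap ℂ F).comp θ.symm.toRingHom).toAlgebra
  have e : ∀ a, @algebraMap ℂ F _ _ A' a = @algebraMap ℂ F _ _ A (θ.symm a) := fun _ => rfl
  refine @h F _ A' x (fun j => ?_) n ⟨l, ?_⟩
  · have := hx j
    unfold Sys.cs at this ⊢
    simpa only [e, RingEquiv.symm_apply_apply] using this
  · exact @AlgebraicIndependent.of_ringHom_of_comp_eq _ ℂ F _ _ _ A' ℂ F _ _ _ _ A _ _ _ _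
      θ.symm (RingHom.id F) hl θ.symm.injective (RingHom.ext fun a => rfl)

/-- the restriction to a translate of a one-parameter subgroup. -/
noncomputable def normNPhi {Λ F : Type} [AddCommGroup Λ] [Field F] [Algebra ℂ F]
    (x : AddChar Λ F) (u : Λ →ₗ[ℤ] ℤ) : AddMonoidAlgebra ℂ Λ →ₐ[ℂ] AddMonoidAlgebra F ℤ :=
  AddMonoidAlgebra.lift ℂ (AddMonoidAlgebra F ℤ) Λ
    { toFun := fun μ => AddMonoidAlgebra.single (u μ.toAdd) (x μ.toAdd)
      map_one' := by
        rw [toAdd_one, map_zero, AddChar.map_zero_eq_one, AddMonoidAlgebra.one_def]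
      map_mul' := fun a b => by
        rw [AddMonoidAlgebra.single_mul_single, toAdd_mul, map_add, AddChar.map_add_eq_mul] }

/-- the Laurent polynomial. -/
noncomputable def normNP {Λ ι : Type} (I : Finset ι) (c : ι → ℂ) (m : ι → Λ) :
    AddMonoidAlgebra ℂ Λ := ∑ i ∈ I, AddMonoidAlgebra.single (m i) (c i)

theorem normN_coeff {Λ ι F : Type} [AddCommGroup Λ] [Field F] [Algebra ℂ F] (x : AddChar Λ F)
    (u : Λ →ₗ[ℤ] ℤ) (I : Finset ι) (c : ι → ℂ) (m : ι → Λ) (t : ℤ) :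
    (normNPhi x u (normNP I c m)).coeff t = ((poly I c m).ref u).cs x ((), t) := by
  classical
  unfold Sys.cs
  simp only [normNP, normNPhi, map_sum, AddMonoidAlgebra.lift_single, AddMonoidAlgebra.coeff_sum,
    Finsupp.finsetSum_apply, sum_filter]
  refine sum_congr rfl fun i _ => ?_
  simp [-LaurentPolynomial.single_eq_C_mul_T, Finsupp.single_apply, ← Algebra.smul_def]

theorem normN_zero {Λ ι F : Type} [AddCommGroup Λ] [Field F] [Algebra ℂ F] (x : AddChar Λ F)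
    (u : Λ →ₗ[ℤ] ℤ) (I : Finset ι) (c : ι → ℂ) (m : ι → Λ) :
    ((poly I c m).ref u).Zero x ↔ normNPhi x u (normNP I c m) = 0 := by
  refine ⟨fun h => ?_, fun h j => ?_⟩
  · ext t
    rw [normN_coeff, h]
    simp
  · have := normN_coeff x u I c m j.2
    rw [h] at this
    exact this.symm

theorem normN_cs {Λ ι F : Type} [AddCommGroup Λ] [Field F] [Algebra ℂ F] (x : AddChar Λ F)
    (I : Finset ι) (c : ι → ℂ) (m : ι → Λ) :
    normNPhi x 0 (normNP I c m) = AddMonoidAlgebra.single 0 ((poly I c m).cs x ()) := by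
  classical
  ext t
  rw [normN_coeff]
  unfold Sys.cs
  by_cases h : 0 = t <;> simp [-LaurentPolynomial.single_eq_C_mul_T, h]

theorem normN_zero0 {Λ ι F : Type} [AddCommGroup Λ] [Field F] [Algebra ℂ F] (x : AddChar Λ F)
    (I : Finset ι) (c : ι → ℂ) (m : ι → Λ) :
    (poly I c m).Zero x ↔ normNPhi x 0 (normNP I c m) = 0 := by
  rw [normN_cs, AddMonoidAlgebra.single_eq_zero]
  exact ⟨fun h => h (), fun h _ => h⟩

theorem sNormN : SNormN := by
  intro Λ ι K _ _ _ _ _ ι₀ I c m hc h0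
  have h1 : ∀ τ : K →+* ℂ, normNBd (poly I (fun i => τ (c i)) m) 1 ∧ ∀ u : Λ →ₗ[ℤ] ℤ, u ≠ 0 →
      normNBd ((poly I (fun i => τ (c i)) m).ref u) 2 := by
    intro τ
    obtain ⟨θ, hθ⟩ := ext_aut τ ι₀
    refine ⟨normN_tw _ θ 1 ?_, fun u hu => normN_tw _ θ 2 ?_⟩
    · simp only [hθ]
      exact h0.1
    · simp only [hθ]
      exact h0.2 u hu
  have hmap : ∀ (θ : ℂ →+* ℂ) (c : ι → ℂ), AddMonoidAlgebra.mapRingHom Λ θ (normNP I c m) =
      normNP I (fun i => θ (c i)) m := fun θ c => by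
    simp only [normNP, map_sum, AddMonoidAlgebra.mapRingHom_single]
  let NP : AddMonoidAlgebra ℂ Λ := ∏ τ : K →+* ℂ, normNP I (fun i => τ (c i)) m
  have hint : ∀ μ, IsIntegral ℤ (NP.coeff μ) := by
    intro μ
    obtain ⟨Q, hQ⟩ : NP ∈ (AddMonoidAlgebra.mapRingHom Λ
        (integralClosure ℤ ℂ).val.toRingHom).range := by
      refine Subring.prod_mem _ fun τ _ => Subring.sum_mem _ fun i hi =>
        ⟨AddMonoidAlgebra.single (m i) ⟨τ (c i), (int_map τ).2 (hc i hi)⟩, ?_⟩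
      rw [AddMonoidAlgebra.mapRingHom_single]
      rfl
    rw [← hQ, AddMonoidAlgebra.coeff_mapRingHom]
    exact (Q.coeff μ).2
  have hfix : ∀ (θ : ℂ ≃+* ℂ) μ, θ (NP.coeff μ) = NP.coeff μ := by
    intro θ μ
    have hb : Function.Bijective fun τ : K →+* ℂ => θ.toRingHom.comp τ :=
      Finite.injective_iff_bijective.1 fun τ τ' e =>
        RingHom.ext fun r => θ.injective (RingHom.congr_fun e r)
    have h1 : AddMonoidAlgebra.mapRingHom Λ θ.toRingHom NP = NP := by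
      rw [map_prod]
      refine Fintype.prod_bijective _ hb _ _ fun τ => ?_
      rw [hmap]
      rfl
    have h2 := AddMonoidAlgebra.coeff_mapRingHom θ.toRingHom NP μ
    rw [h1] at h2
    exact h2.symm
  choose z hz using fun μ => normL_fix (hint μ) fun θ => hfix θ μ
  have hz' : ∀ μ, (z μ : ℂ) = NP.coeff μ := fun μ => by simpa using hz μ
  have hR : normNP NP.coeff.support (fun μ => (z μ : ℂ)) id = NP := by
    simp only [normNP, hz', id]
    exact NP.sum_coeff_single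
  have hfac : ∀ (F : Type) [Field F] [Algebra ℂ F] (x : AddChar Λ F) (u : Λ →ₗ[ℤ] ℤ),
      normNPhi x u (normNP NP.coeff.support (fun μ => (z μ : ℂ)) id) = 0 →
      ∃ τ : K →+* ℂ, normNPhi x u (normNP I (fun i => τ (c i)) m) = 0 := by
    intro F _ _ x u h
    rw [hR, map_prod] at h
    obtain ⟨τ, _, h⟩ := prod_eq_zero_iff.1 h
    exact ⟨τ, h⟩
  refine ⟨NP.coeff.support, z, fun μ hμ h => ?_, ⟨fun F _ _ x hx => ?_, fun u hu F _ _ x hx => ?_⟩,
    fun χ => ?_⟩
  · exact Finsupp.mem_support_iff.1 hμ (by rw [← hz', h, Int.cast_zero])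
  · obtain ⟨τ, h⟩ := hfac F x 0 ((normN_zero0 ..).1 hx)
    exact (h1 τ).1 F x ((normN_zero0 ..).2 h)
  · obtain ⟨τ, h⟩ := hfac F x u ((normN_zero ..).1 hx)
    exact (h1 τ).2 u hu F x ((normN_zero ..).2 h)
  · have e : ∀ {κ : Type} (J : Finset κ) (a : κ → ℂ) (n : κ → Λ),
        AddMonoidAlgebra.lift ℂ ℂ Λ χ.toMonoidHom (normNP J a n) = evN J a n χ := fun J a n => by
      simp [normNP, evN]
    rw [← e, hR, map_prod]
    exact prod_congr rfl fun τ _ => e ..

end Pool.Agent.MP_c1891a_nt.G43
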